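import Mathlib
import Pool.Agent.Q68.LD.Defs

/-! The Hardy-Littlewood property and the statement of Q1 of MP_135240_an. -/

open MeasureTheory Filter Topology
open scoped ENNReal

namespace Q68.HL

/-- The centred maximal function `H^* f(x) = sup_{r>0} μ(B(x,r))⁻¹ ∫_{B(x,r)} |f| dμ`. -/
noncomputable def maximalFunction {X : Type*} [MetricSpace X] [MeasurableSpace X] (μ : Measure X)
    (f : X → ℝ) (x : X) : ℝ≥0∞ :=
  ⨆ (r : ℝ) (_ : 0 < r), (∫⁻ y in Metric.ball x r, ‖f y‖ₑ ∂μ) / μ (Metric.ball x r)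

/-- The Hardy-Littlewood property: `H^*` is of weak type (1,1). -/
def HardyLittlewood {X : Type*} [MetricSpace X] [MeasurableSpace X] (μ : Measure X) : Prop :=
  ∃ C : ℝ, 1 ≤ C ∧ ∀ f : X → ℝ, Integrable f μ → ∀ ε : ℝ, 0 < ε →
    μ {x | ENNReal.ofReal ε ≤ maximalFunction μ f x} ≤
      ENNReal.ofReal (C / ε) * ∫⁻ y, ‖f y‖ₑ ∂μ

/-- The statement which Q1 asks to prove or disprove. (`JointConvergence μ T f x` says that
`U_{r,k} f(x) → f^*(x)` as `r ↘ 0`, `k → ∞`.) -/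
def Question1 : Prop :=
  ∀ (X : Type) [MetricSpace X] [MeasurableSpace X] [BorelSpace X] (μ : Measure X)
    [IsProbabilityMeasure μ], HardyLittlewood μ → ∀ T : X → X, MeasurePreserving T μ μ →
    ∀ f : X → ℝ, Integrable f μ → ∀ᵐ x ∂μ, LD.JointConvergence μ T f x

end Q68.HL
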