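import Mathlib

/-! A compact ultrametric space with a two-stage filtration. -/

open MeasureTheory Filter Topology Set
open scoped ENNReal

namespace Q68.HL

/-- number of fibres at stage `i` -/
abbrev J (i : ℕ) : ℕ := 4 ^ i

/-- size of the fibres at stage `i` -/
abbrev W (i : ℕ) : ℕ := 2 ^ (i + 4 ^ i)

/-- the finite alphabet of stage `i` -/
abbrev S (i : ℕ) : Type := Fin (J i) × Fin (W i)

/-- the space -/
abbrev X : Type := ∀ i, S i

/-- the equivalence relations of the filtration -/
def rel (n : ℕ) (x y : X) : Prop :=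
  (∀ l < n / 2, x l = y l) ∧ (n % 2 = 1 → (x (n / 2)).1 = (y (n / 2)).1)

lemma rel_refl (n : ℕ) (x : X) : rel n x x := ⟨fun _ _ => rfl, fun _ => rfl⟩

lemma rel_symm {n : ℕ} {x y : X} (h : rel n x y) : rel n y x :=
  ⟨fun l hl => (h.1 l hl).symm, fun hn => (h.2 hn).symm⟩

lemma rel_trans {n : ℕ} {x y z : X} (h : rel n x y) (h' : rel n y z) : rel n x z :=
  ⟨fun l hl => (h.1 l hl).trans (h'.1 l hl), fun hn => (h.2 hn).trans (h'.2 hn)⟩

lemma rel_zero (x y : X) : rel 0 x y :=
  ⟨fun l hl => absurd hl (Nat.not_lt_zero _), fun h => absurd h (by norm_num)⟩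

lemma rel_succ {n : ℕ} {x y : X} (h : rel (n + 1) x y) : rel n x y := by
  constructor
  · intro l hl
    exact h.1 l (by omega)
  · intro hn
    rw [h.1 (n / 2) (by omega)]

lemma rel_mono {n m : ℕ} (hnm : n ≤ m) {x y : X} (h : rel m x y) : rel n x y := by
  induction m, hnm using Nat.le_induction with
  | base => exact h
  | succ m _ ih => exact ih (rel_succ h)

lemma exists_not_rel {x y : X} (h : x ≠ y) : ∃ n, ¬ rel (n + 1) x y := by
  obtain ⟨i, hi⟩ := Function.ne_iff.1 h
  exact ⟨2 * i + 1, fun h' => hi (h'.1 i (by omega))⟩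

open Classical in
/-- the number of levels at which two different points are equivalent -/
noncomputable def fd (x y : X) : ℕ :=
  if h : x ≠ y then Nat.find (exists_not_rel h) else 0

lemma rel_iff_le_fd {x y : X} (h : x ≠ y) (n : ℕ) : rel n x y ↔ n ≤ fd x y := by
  classical
  unfold fd
  rw [dif_pos h, Nat.le_find_iff]
  constructor
  · intro hn m hm h'
    exact h' (rel_mono hm hn)
  · intro hn
    rcases n with _ | n
    · exact rel_zero _ _
    · have := hn n (Nat.lt_succ_self n)
      push Not at this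
      exact this

open Classical in
/-- the distance -/
noncomputable def ds (x y : X) : ℝ := if x = y then 0 else (1 / 2) ^ (fd x y)

lemma ds_self (x : X) : ds x x = 0 := by simp [ds]

lemma fd_comm (x y : X) : fd x y = fd y x := by
  by_cases h : x = y
  · subst h; rfl
  · apply le_antisymm
    · rw [← rel_iff_le_fd (Ne.symm h)]
      exact rel_symm ((rel_iff_le_fd h _).2 le_rfl)
    · rw [← rel_iff_le_fd h]
      exact rel_symm ((rel_iff_le_fd (Ne.symm h) _).2 le_rfl)

lemma ds_comm (x y : X) : ds x y = ds y x := by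
  unfold ds
  rw [fd_comm]
  by_cases h : x = y
  · subst h; rfl
  · rw [if_neg h, if_neg (Ne.symm h)]

lemma pow_anti : StrictAnti fun n : ℕ => (1 / 2 : ℝ) ^ n :=
  pow_right_strictAnti₀ (by norm_num) (by norm_num)

lemma ds_le_iff (x y : X) (n : ℕ) : ds x y ≤ (1 / 2) ^ n ↔ rel n x y := by
  unfold ds
  by_cases h : x = y
  · subst h
    rw [if_pos rfl]
    exact ⟨fun _ => rel_refl _ _, fun _ => by positivity⟩
  · rw [if_neg h, rel_iff_le_fd h]
    exact pow_anti.le_iff_ge

lemma ds_lt_iff (x y : X) (n : ℕ) : ds x y < (1 / 2) ^ n ↔ rel (n + 1) x y := by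
  unfold ds
  by_cases h : x = y
  · subst h
    rw [if_pos rfl]
    exact ⟨fun _ => rel_refl _ _, fun _ => by positivity⟩
  · rw [if_neg h, rel_iff_le_fd h]
    exact pow_anti.lt_iff_gt

lemma ds_nonneg (x y : X) : 0 ≤ ds x y := by
  unfold ds
  split_ifs
  · exact le_rfl
  · positivity

lemma ds_ultra (x y z : X) : ds x z ≤ max (ds x y) (ds y z) := by
  by_cases h : x = y
  · subst h; exact le_max_right _ _
  by_cases h' : y = z
  · subst h'; exact le_max_left _ _
  have e1 : ds x y = (1 / 2) ^ (fd x y) := if_neg h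
  have e2 : ds y z = (1 / 2) ^ (fd y z) := if_neg h'
  rcases le_total (fd x y) (fd y z) with hle | hle
  · apply le_max_of_le_left
    rw [e1, ds_le_iff]
    exact rel_trans ((rel_iff_le_fd h _).2 le_rfl) (rel_mono hle ((rel_iff_le_fd h' _).2 le_rfl))
  · apply le_max_of_le_right
    rw [e2, ds_le_iff]
    exact rel_trans (rel_mono hle ((rel_iff_le_fd h _).2 le_rfl)) ((rel_iff_le_fd h' _).2 le_rfl)

lemma ds_triangle (x y z : X) : ds x z ≤ ds x y + ds y z := by
  refine (ds_ultra x y z).trans (max_le ?_ ?_)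
  · linarith [ds_nonneg y z]
  · linarith [ds_nonneg x y]

lemma eq_of_ds (x y : X) (h : ds x y = 0) : x = y := by
  by_contra hne
  unfold ds at h
  rw [if_neg hne] at h
  have : (0 : ℝ) < (1 / 2) ^ (fd x y) := by positivity
  linarith

/-- the classes, in the form of boxes -/
def box (n : ℕ) (x : X) : Set X :=
  Set.pi (Finset.range (n / 2 + 1) : Set ℕ)
    (fun l => {s | (l < n / 2 → s = x l) ∧ (l = n / 2 → n % 2 = 1 → s.1 = (x l).1)})

lemma mem_box {n : ℕ} {x y : X} : y ∈ box n x ↔ rel n x y := by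
  unfold box rel
  rw [Set.mem_pi]
  simp only [Finset.coe_range, mem_Iio, mem_ofPred_eq]
  constructor
  · intro h
    exact ⟨fun l hl => ((h l (by omega)).1 hl).symm,
      fun hn => ((h (n / 2) (by omega)).2 rfl hn).symm⟩
  · rintro ⟨h1, h2⟩ l hl
    refine ⟨fun hl' => (h1 l hl').symm, fun hl' hn => ?_⟩
    subst hl'
    exact (h2 hn).symm

lemma box_open (n : ℕ) (x : X) : IsOpen (box n x) :=
  isOpen_set_pi (Finset.finite_toSet _) fun i _ => isOpen_discrete _

lemma isOpen_iff_ds (s : Set X) : IsOpen s ↔ ∀ x ∈ s, ∃ ε > 0, ∀ y, ds x y < ε → y ∈ s := by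
  constructor
  · intro hs x hx
    obtain ⟨I, u, hu, hsub⟩ := isOpen_pi_iff.1 hs x hx
    refine ⟨(1 / 2) ^ (2 * (I.sup id) + 2), by positivity, fun y hy => hsub ?_⟩
    rw [ds_lt_iff] at hy
    intro i hi
    have hle : i ≤ I.sup id := Finset.le_sup (f := id) hi
    have : x i = y i := hy.1 i (by omega)
    rw [← this]
    exact (hu i hi).2
  · intro h
    rw [isOpen_iff_forall_mem_open]
    intro x hx
    obtain ⟨ε, hε, hy⟩ := h x hx
    obtain ⟨n, hn⟩ := exists_pow_lt_of_lt_one hε (by norm_num : (1 / 2 : ℝ) < 1)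
    refine ⟨box n x, fun y hxy => hy y ?_, box_open n x, mem_box.2 (rel_refl _ _)⟩
    exact lt_of_le_of_lt ((ds_le_iff x y n).2 (mem_box.1 hxy)) hn

/-- The metric; its topology is the product topology. -/
noncomputable abbrev met : MetricSpace X :=
  MetricSpace.ofDistTopology ds ds_self ds_comm ds_triangle isOpen_iff_ds eq_of_ds

/-- every ball is a box -/
lemma ball_eq {x : X} {r : ℝ} (hr : 0 < r) : ∃ n : ℕ, @Metric.ball X met.toPseudoMetricSpace x r = box n x := by
  classical
  have hex : ∃ n : ℕ, (1 / 2 : ℝ) ^ n < r := exists_pow_lt_of_lt_one hr (by norm_num)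
  refine ⟨Nat.find hex, ?_⟩
  ext y
  have h1 : y ∈ @Metric.ball X met.toPseudoMetricSpace x r ↔ ds y x < r := Iff.rfl
  rw [h1, mem_box, ← ds_le_iff, ds_comm]
  constructor
  · intro h
    by_cases hxy : x = y
    · subst hxy
      rw [ds_self]
      positivity
    · have e : ds x y = (1 / 2) ^ (fd x y) := if_neg hxy
      rw [e] at h ⊢
      exact pow_anti.le_iff_ge.2 (Nat.find_min' hex h)
  · intro h
    exact lt_of_le_of_lt h (Nat.find_spec hex)

/-- the box of level `n + 1` is a ball of radius `(1/2)^n` -/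
lemma ball_pow (n : ℕ) (x : X) :
    @Metric.ball X met.toPseudoMetricSpace x ((1 / 2) ^ n) = box (n + 1) x := by
  ext y
  have h1 : y ∈ @Metric.ball X met.toPseudoMetricSpace x ((1 / 2) ^ n) ↔ ds y x < (1 / 2) ^ n :=
    Iff.rfl
  rw [h1, mem_box, ds_comm, ds_lt_iff]

end Q68.HL
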