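import Mathlib
import Pool.Agent.Q68.HL.Space

/-! The weak type inequality for the maximal function over boxes. -/

open MeasureTheory Filter Topology Set
open scoped ENNReal

namespace Q68.HL

lemma box_measurable (n : ℕ) (x : X) : MeasurableSet (box n x) := (box_open n x).measurableSet

lemma mem_box_self (n : ℕ) (x : X) : x ∈ box n x := mem_box.2 (rel_refl n x)

lemma box_eq_of_mem {n : ℕ} {x y : X} (h : y ∈ box n x) : box n y = box n x := by
  rw [mem_box] at h
  ext z
  rw [mem_box, mem_box]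
  exact ⟨fun h' => rel_trans h h', fun h' => rel_trans (rel_symm h) h'⟩

lemma box_mono {n m : ℕ} (h : n ≤ m) (x : X) : box m x ⊆ box n x := fun _ hy =>
  mem_box.2 (rel_mono h (mem_box.1 hy))

lemma boxes_finite (n : ℕ) : (Set.range (box n)).Finite := by
  classical
  let code : X → (∀ l : Fin (n / 2 + 1), S l) := fun x l => x l
  let ext : (∀ l : Fin (n / 2 + 1), S l) → X := fun c l =>
    if h : l < n / 2 + 1 then c ⟨l, h⟩ else (⟨0, Nat.pos_of_ne_zero (NeZero.ne _)⟩,
      ⟨0, Nat.pos_of_ne_zero (NeZero.ne _)⟩)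
  apply (Set.finite_range (fun c => box n (ext c))).subset
  rintro _ ⟨x, rfl⟩
  refine ⟨code x, ?_⟩
  apply box_eq_of_mem
  rw [mem_box]
  have he : ∀ l, l < n / 2 + 1 → x l = ext (code x) l := by
    intro l hl
    simp only [ext, code, dif_pos hl]
  exact ⟨fun l hl => he l (by omega), fun _ => by rw [← he (n / 2) (by omega)]⟩

variable (μ : Measure X) [IsProbabilityMeasure μ] (g : X → ℝ≥0∞)

/-- averages over boxes -/
noncomputable def D (n : ℕ) (x : X) : ℝ≥0∞ := (∫⁻ y in box n x, g y ∂μ) / μ (box n x)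

omit [IsProbabilityMeasure μ] in
lemma D_congr {n m : ℕ} (hnm : n ≤ m) {x y : X} (h : y ∈ box m x) : D μ g n y = D μ g n x := by
  unfold D
  rw [box_eq_of_mem (box_mono hnm x h)]

/-- the points whose first large average occurs at level `n` -/
def first (c : ℝ≥0∞) (n : ℕ) : Set X := {x | c < D μ g n x ∧ ∀ m < n, ¬ c < D μ g m x}

omit [IsProbabilityMeasure μ] in
lemma first_union (c : ℝ≥0∞) (n : ℕ) {x : X} (hx : x ∈ first μ g c n) :
    box n x ⊆ first μ g c n := by
  intro y hy
  refine ⟨?_, fun m hm => ?_⟩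
  · rw [D_congr μ g le_rfl hy]
    exact hx.1
  · rw [D_congr μ g hm.le hy]
    exact hx.2 m hm

lemma first_measurable (c : ℝ≥0∞) (n : ℕ) : MeasurableSet (first μ g c n) ∧
    c * μ (first μ g c n) ≤ ∫⁻ y in first μ g c n, g y ∂μ := by
  classical
  have hfin : {s ∈ Set.range (box n) | s ⊆ first μ g c n}.Finite :=
    (boxes_finite n).subset (Set.sep_subset _ _)
  set Fs : Finset (Set X) := hfin.toFinset with hFs
  have hU : first μ g c n = ⋃ s ∈ Fs, s := by
    ext x
    simp only [mem_iUnion, exists_prop]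
    constructor
    · intro hx
      refine ⟨box n x, ?_, mem_box_self n x⟩
      rw [hFs, Set.Finite.mem_toFinset]
      exact ⟨⟨x, rfl⟩, first_union μ g c n hx⟩
    · rintro ⟨s, hs, hx⟩
      rw [hFs, Set.Finite.mem_toFinset] at hs
      exact hs.2 hx
  have hm : ∀ s ∈ Fs, MeasurableSet s := by
    intro s hs
    rw [hFs, Set.Finite.mem_toFinset] at hs
    obtain ⟨⟨x, rfl⟩, -⟩ := hs
    exact box_measurable n x
  have hd : (Fs : Set (Set X)).PairwiseDisjoint id := by
    intro s hs t ht hst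
    rw [Finset.mem_coe, hFs, Set.Finite.mem_toFinset] at hs ht
    obtain ⟨⟨x, rfl⟩, -⟩ := hs
    obtain ⟨⟨y, rfl⟩, -⟩ := ht
    show Disjoint (box n x) (box n y)
    rw [Set.disjoint_left]
    intro z hz hz'
    exact hst ((box_eq_of_mem hz).symm.trans (box_eq_of_mem hz'))
  have hle : ∀ s ∈ Fs, c * μ s ≤ ∫⁻ y in s, g y ∂μ := by
    intro s hs
    rw [hFs, Set.Finite.mem_toFinset] at hs
    obtain ⟨⟨x, rfl⟩, hsub⟩ := hs
    have h1 : c < D μ g n x := (hsub (mem_box_self n x)).1
    unfold D at h1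
    by_cases h0 : μ (box n x) = 0
    · rw [h0, mul_zero]
      exact zero_le
    · exact ((ENNReal.lt_div_iff_mul_lt (Or.inl h0) (Or.inl (measure_ne_top _ _))).1 h1).le
  constructor
  · rw [hU]
    exact Finset.measurableSet_biUnion _ hm
  · have e1 : μ (⋃ s ∈ Fs, s) = ∑ s ∈ Fs, μ s := measure_biUnion_finset hd hm
    have e2 : ∫⁻ y in ⋃ s ∈ Fs, s, g y ∂μ = ∑ s ∈ Fs, ∫⁻ y in s, g y ∂μ :=
      lintegral_biUnion_finset hd hm g
    rw [hU, e1, e2, Finset.mul_sum]
    exact Finset.sum_le_sum hle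

/-- Weak type inequality for the maximal function over boxes. -/
theorem weak {c : ℝ≥0∞} : c * μ {x | c < ⨆ n, D μ g n x} ≤ ∫⁻ y, g y ∂μ := by
  classical
  have hsub : {x | c < ⨆ n, D μ g n x} ⊆ ⋃ n, first μ g c n := by
    intro x hx
    have hx' : c < ⨆ n, D μ g n x := hx
    have hex : ∃ n, c < D μ g n x := lt_iSup_iff.1 hx'
    exact mem_iUnion.2 ⟨Nat.find hex, Nat.find_spec hex, fun m hm => Nat.find_min hex hm⟩
  have hd : Pairwise (Function.onFun Disjoint (first μ g c)) := by
    intro n m hnm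
    rw [Function.onFun, Set.disjoint_left]
    intro x hx hx'
    rcases lt_or_gt_of_ne hnm with h | h
    · exact hx'.2 n h hx.1
    · exact hx.2 m h hx'.1
  calc c * μ {x | c < ⨆ n, D μ g n x} ≤ c * μ (⋃ n, first μ g c n) := by gcongr
    _ ≤ c * ∑' n, μ (first μ g c n) := by
        gcongr
        exact measure_iUnion_le _
    _ = ∑' n, c * μ (first μ g c n) := ENNReal.tsum_mul_left.symm
    _ ≤ ∑' n, ∫⁻ y in first μ g c n, g y ∂μ :=
        ENNReal.tsum_le_tsum fun n => (first_measurable μ g c n).2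
    _ = ∫⁻ y in ⋃ n, first μ g c n, g y ∂μ :=
        (lintegral_iUnion (fun n => (first_measurable μ g c n).1) hd g).symm
    _ ≤ _ := setLIntegral_le_lintegral _ _

end Q68.HL
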