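import Mathlib
import Pool.Agent.Q68.HL.Weak

/-! The measure, the transformation and the function. -/

open MeasureTheory Filter Topology Set
open scoped ENNReal

namespace Q68.HL

/-- the uniform probability on the alphabet -/
noncomputable def nu (i : ℕ) : Measure (S i) := (Fintype.card (S i) : ℝ≥0∞)⁻¹ • Measure.count

lemma card_S (i : ℕ) : Fintype.card (S i) = J i * W i := by simp

lemma card_pos (i : ℕ) : 0 < Fintype.card (S i) := by rw [card_S]; positivity

lemma nu_finset (i : ℕ) (A : Finset (S i)) :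
    nu i (A : Set (S i)) = (Fintype.card (S i) : ℝ≥0∞)⁻¹ * A.card := by
  unfold nu
  rw [Measure.smul_apply, Measure.count_apply_finset, smul_eq_mul]

noncomputable instance (i : ℕ) : IsProbabilityMeasure (nu i) := by
  constructor
  have h := nu_finset i Finset.univ
  rw [Finset.coe_univ] at h
  rw [h, Finset.card_univ, ENNReal.inv_mul_cancel]
  · exact_mod_cast (card_pos i).ne'
  · exact ENNReal.natCast_ne_top _

lemma nu_real (i : ℕ) (A : Finset (S i)) :
    (nu i).real (A : Set (S i)) = A.card / ((J i : ℝ) * W i) := by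
  rw [measureReal_def, nu_finset, ENNReal.toReal_mul, ENNReal.toReal_inv, card_S]
  simp only [ENNReal.toReal_natCast]
  push_cast
  rw [div_eq_inv_mul]

/-- the product measure -/
noncomputable def mu : Measure X := Measure.infinitePi nu

noncomputable instance : IsProbabilityMeasure mu := by unfold mu; infer_instance

/-- the enumeration of the points of the alphabet which are used -/
def ev (i m : ℕ) : S i :=
  (⟨(Nat.log 2 m - i) % J i, Nat.mod_lt _ (by positivity)⟩, ⟨m % W i, Nat.mod_lt _ (by positivity)⟩)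

lemma ev_inj {i m m' : ℕ} (hm : m < W i) (hm' : m' < W i) (h : ev i m = ev i m') : m = m' := by
  have h1 : m % W i = m' % W i := congrArg (fun s : S i => (s.2 : ℕ)) h
  rwa [Nat.mod_eq_of_lt hm, Nat.mod_eq_of_lt hm'] at h1

/-- the points of fibre `j` which are used -/
def Ef (i j : ℕ) : Finset (S i) := (Finset.Ico (2 ^ (i + j)) (2 ^ (i + j + 1))).image (ev i)

lemma lt_W {i j m : ℕ} (hj : j < J i) (hm : m < 2 ^ (i + j + 1)) : m < W i := by
  refine lt_of_lt_of_le hm (Nat.pow_le_pow_right (by norm_num) ?_)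
  have : j + 1 ≤ 4 ^ i := hj
  omega

lemma card_Ef {i j : ℕ} (hj : j < J i) : (Ef i j).card = 2 ^ (i + j) := by
  unfold Ef
  rw [Finset.card_image_of_injOn, Nat.card_Ico, pow_succ]
  · omega
  · intro a ha b hb hab
    rw [Finset.coe_Ico, mem_Ico] at ha hb
    exact ev_inj (lt_W hj ha.2) (lt_W hj hb.2) hab

lemma ev_fst {i j m : ℕ} (hj : j < J i) (hm : m ∈ Finset.Ico (2 ^ (i + j)) (2 ^ (i + j + 1))) :
    ((ev i m).1 : ℕ) = j := by
  rw [Finset.mem_Ico] at hm
  have hlog : Nat.log 2 m = i + j := by
    rw [Nat.log_eq_iff]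
    · exact hm
    · right
      constructor
      · norm_num
      · have : 0 < 2 ^ (i + j) := by positivity
        omega
  show (Nat.log 2 m - i) % J i = j
  rw [hlog, Nat.add_sub_cancel_left, Nat.mod_eq_of_lt hj]

/-- A permutation which moves down a given list of different points. -/
lemma exists_perm {α : Type*} [DecidableEq α] (e : ℕ → α) (N : ℕ)
    (he : ∀ m m', m < N → m' < N → e m = e m' → m = m') :
    ∃ τ : Equiv.Perm α, ∀ m, m + 1 < N → τ (e (m + 1)) = e m := by
  have hnd : (List.ofFn fun k : Fin N => e k).Nodup := by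
    rw [List.nodup_ofFn]
    intro a b hab
    exact Fin.ext (he _ _ a.2 b.2 hab)
  refine ⟨(List.formPerm (List.ofFn fun k : Fin N => e k))⁻¹, fun m hm => ?_⟩
  have h := List.formPerm_apply_lt_getElem _ hnd m (by simpa using hm)
  rw [List.getElem_ofFn, List.getElem_ofFn] at h
  rw [Equiv.Perm.inv_eq_iff_eq]
  exact h.symm

/-- the permutation of the alphabet -/
noncomputable def tau (i : ℕ) : Equiv.Perm (S i) :=
  (exists_perm (ev i) (W i) fun _ _ h h' => ev_inj h h').choose

lemma tau_ev {i m : ℕ} (hm : m + 1 < W i) : tau i (ev i (m + 1)) = ev i m :=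
  (exists_perm (ev i) (W i) fun _ _ h h' => ev_inj h h').choose_spec m hm

lemma tau_iter {i m : ℕ} (hm : m < W i) : (tau i)^[m] (ev i m) = ev i 0 := by
  induction m with
  | zero => rfl
  | succ m ih => rw [Function.iterate_succ_apply, tau_ev hm, ih (by omega)]

/-- The transformation: a homeomorphism. -/
noncomputable def T : X ≃ₜ X where
  toFun := fun x i => tau i (x i)
  invFun := fun x i => (tau i).symm (x i)
  left_inv := fun x => by funext i; simp
  right_inv := fun x => by funext i; simp
  continuous_toFun := continuous_pi fun i => continuous_of_discreteTopology.comp (continuous_apply i)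
  continuous_invFun := continuous_pi fun i => continuous_of_discreteTopology.comp (continuous_apply i)

lemma T_iter (t : ℕ) (x : X) (i : ℕ) : (T^[t] x) i = (tau i)^[t] (x i) := by
  induction t with
  | zero => rfl
  | succ t ih => rw [Function.iterate_succ_apply', Function.iterate_succ_apply', ← ih]; rfl

lemma nu_map (i : ℕ) : (nu i).map (tau i) = nu i := by
  unfold nu
  rw [Measure.map_smul]
  congr 1
  have h : Measure.map (tau i) (Measure.count : Measure (S i)) = Measure.count := by
    ext s hs
    rw [Measure.map_apply (measurable_of_countable _) hs]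
    have h2 : (tau i) ⁻¹' s = (tau i).symm '' s := (Equiv.image_symm_eq_preimage _ _).symm
    rw [h2]
    exact Measure.count_injective_image (tau i).symm.injective s
  exact h

lemma T_mp : MeasurePreserving T mu mu := by
  refine ⟨T.continuous.measurable, ?_⟩
  have h := Measure.infinitePi_map_pi nu (f := fun i => tau i) fun i => measurable_of_countable _
  unfold mu
  refine h.trans ?_
  congr 1
  funext i
  exact nu_map i

open Classical in
/-- the functions of the coordinates -/
noncomputable def fE (i : ℕ) (s : S i) : ℝ≥0∞ := if s = ev i 0 then (2 : ℝ≥0∞) ^ i * W i else 0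

/-- the sum, with values in `[0, ∞]` -/
noncomputable def FE (x : X) : ℝ≥0∞ := ∑' i, fE i (x i)

/-- the function -/
noncomputable def f (x : X) : ℝ := (FE x).toReal

lemma fE_measurable (i : ℕ) : Measurable fun x : X => fE i (x i) := by
  have h : Measurable (fE i) := measurable_of_countable _
  exact h.comp (measurable_pi_apply i)

lemma FE_measurable : Measurable FE := Measurable.tsum fE_measurable

lemma lintegral_fE (i : ℕ) : ∫⁻ x, fE i (x i) ∂mu = (2⁻¹ : ℝ≥0∞) ^ i := by
  classical
  have h1 : ∫⁻ x, fE i (x i) ∂mu = ∫⁻ s, fE i s ∂(nu i) := by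
    have h := (measurePreserving_eval_infinitePi nu i).lintegral_comp (f := fE i)
      (measurable_of_countable _)
    exact h
  have h2 : (fun s : S i => fE i s) = ({ev i 0} : Set (S i)).indicator (fun _ => (2 : ℝ≥0∞) ^ i * W i) := by
    funext s
    unfold fE
    simp only [indicator, mem_singleton_iff]
  rw [h1, h2, lintegral_indicator (measurableSet_singleton _), setLIntegral_const]
  have h3 : nu i {ev i 0} = ((J i * W i : ℕ) : ℝ≥0∞)⁻¹ := by
    have := nu_finset i {ev i 0}
    rw [Finset.coe_singleton, Finset.card_singleton, card_S] at this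
    rw [this]
    simp
  rw [h3]
  have hW : (W i : ℝ≥0∞) ≠ 0 := by
    have : W i ≠ 0 := by positivity
    exact_mod_cast this
  have hWt : (W i : ℝ≥0∞) ≠ ∞ := ENNReal.natCast_ne_top _
  have h2t : ((2 : ℝ≥0∞) ^ i) ≠ ∞ := ENNReal.pow_ne_top (by norm_num)
  have h20 : ((2 : ℝ≥0∞) ^ i) ≠ 0 := by positivity
  have e1 : ((J i * W i : ℕ) : ℝ≥0∞) = (2 : ℝ≥0∞) ^ i * ((2 : ℝ≥0∞) ^ i * W i) := by
    have : J i = 2 ^ i * 2 ^ i := by
      show 4 ^ i = _
      rw [← mul_pow]
      norm_num
    rw [this]
    push_cast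
    ring
  rw [e1, ENNReal.mul_inv (Or.inl h20) (Or.inl h2t), mul_comm ((2 : ℝ≥0∞) ^ i)⁻¹, ← mul_assoc,
    ENNReal.mul_inv_cancel (mul_ne_zero h20 hW) (ENNReal.mul_ne_top h2t hWt), one_mul,
    ENNReal.inv_pow]

lemma lintegral_FE : ∫⁻ x, FE x ∂mu ≠ ∞ := by
  unfold FE
  rw [lintegral_tsum fun i => (fE_measurable i).aemeasurable]
  simp_rw [lintegral_fE]
  rw [ENNReal.tsum_geometric]
  norm_num

lemma f_integrable : Integrable f mu :=
  integrable_toReal_of_lintegral_ne_top FE_measurable.aemeasurable lintegral_FE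

lemma f_nonneg (x : X) : 0 ≤ f x := ENNReal.toReal_nonneg

lemma ae_fin : ∀ᵐ x ∂mu, ∀ t : ℕ, FE (T^[t] x) < ∞ :=
  ae_all_iff.2 fun t => (T_mp.iterate t).quasiMeasurePreserving.ae
    (ae_lt_top FE_measurable lintegral_FE)

lemma f_lower {x : X} (hx : FE x < ∞) {i : ℕ} (h : x i = ev i 0) : (2 : ℝ) ^ i * W i ≤ f x := by
  have h1 : (2 : ℝ≥0∞) ^ i * W i ≤ FE x := by
    have h2 : fE i (x i) ≤ FE x := ENNReal.le_tsum i
    rwa [h, fE, if_pos rfl] at h2
  have h3 := ENNReal.toReal_mono hx.ne h1
  rw [ENNReal.toReal_mul, ENNReal.toReal_pow] at h3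
  unfold f
  simpa using h3

end Q68.HL
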