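import Mathlib
import Pool.Agent.Q68.HL.Dyn
import Pool.Agent.Q68.LD.Defs

/-! The averages over small balls are unbounded at every point. -/

open MeasureTheory Filter Topology Set
open scoped ENNReal

namespace Q68.HL

open Q68.LD

/-- the part of a box which is used -/
def sub (i : ℕ) (x : X) : Set X :=
  Set.pi (Finset.range (i + 1) : Set ℕ)
    (fun l => {s | (l < i → s = x l) ∧ (l = i → s ∈ Ef l (x l).1)})

lemma sub_measurable (i : ℕ) (x : X) : MeasurableSet (sub i x) :=
  MeasurableSet.pi (Finset.countable_toSet _) fun _ _ => MeasurableSet.of_discrete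

lemma half_odd (i : ℕ) : (2 * i + 1) / 2 = i := by omega

lemma sub_subset (i : ℕ) (x : X) : sub i x ⊆ box (2 * i + 1) x := by
  intro y hy
  rw [mem_box]
  unfold sub at hy
  rw [Set.mem_pi] at hy
  simp only [Finset.coe_range, mem_Iio, mem_ofPred_eq] at hy
  refine ⟨fun l hl => ?_, fun _ => ?_⟩
  · rw [half_odd] at hl
    exact ((hy l (by omega)).1 hl).symm
  · rw [half_odd]
    have h1 := (hy i (by omega)).2 rfl
    obtain ⟨m, hm, h2⟩ := Finset.mem_image.1 h1
    have h3 := ev_fst (x i).1.2 hm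
    rw [← h2]
    exact Fin.ext h3.symm

/-- the common factor -/
noncomputable def P (i : ℕ) (x : X) : ℝ := ∏ l ∈ Finset.range i, (nu l).real {x l}

lemma real_pi (i : ℕ) (t : ∀ l, Set (S l)) :
    mu.real (Set.pi (Finset.range (i + 1) : Set ℕ) t) =
      (∏ l ∈ Finset.range i, (nu l).real (t l)) * (nu i).real (t i) := by
  rw [← Finset.prod_range_succ, measureReal_def]
  unfold mu
  rw [Measure.infinitePi_pi _ (fun i _ => MeasurableSet.of_discrete), ENNReal.toReal_prod]
  rfl

lemma sub_real (i : ℕ) (x : X) :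
    mu.real (sub i x) = P i x * (2 ^ (i + ((x i).1 : ℕ)) / ((J i : ℝ) * W i)) := by
  unfold sub
  rw [real_pi]
  congr 1
  · refine Finset.prod_congr rfl fun l hl => ?_
    have hl' := Finset.mem_range.1 hl
    congr 1
    ext s
    simp only [mem_ofPred_eq, mem_singleton_iff]
    constructor
    · exact fun h => h.1 hl'
    · exact fun h => ⟨fun _ => h, fun h' => absurd h' (by omega)⟩
  · have e : {s : S i | (i < i → s = x i) ∧ (i = i → s ∈ Ef i (x i).1)} =
        (Ef i (x i).1 : Set (S i)) := by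
      ext s
      simp
    rw [e, nu_real, card_Ef (x i).1.2]
    push_cast
    rfl

lemma box_real (i : ℕ) (x : X) :
    mu.real (box (2 * i + 1) x) = P i x * (W i / ((J i : ℝ) * W i)) := by
  unfold box
  rw [half_odd, real_pi]
  congr 1
  · refine Finset.prod_congr rfl fun l hl => ?_
    have hl' := Finset.mem_range.1 hl
    congr 1
    ext s
    simp only [mem_ofPred_eq, mem_singleton_iff]
    constructor
    · exact fun h => h.1 hl'
    · exact fun h => ⟨fun _ => h, fun h' => absurd h' (by omega)⟩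
  · have e : {s : S i | (i < i → s = x i) ∧ (i = i → (2 * i + 1) % 2 = 1 → s.1 = (x i).1)} =
        (({(x i).1} ×ˢ Finset.univ : Finset (S i)) : Set (S i)) := by
      ext s
      have : (2 * i + 1) % 2 = 1 := by omega
      simp [this]
      constructor
      · intro h
        exact ⟨s.2, by rw [← h]⟩
      · rintro ⟨y, rfl⟩
        rfl
    rw [e, nu_real]
    congr 2
    rw [Finset.card_product]
    simp

lemma P_pos (i : ℕ) (x : X) : 0 < P i x := by
  unfold P
  refine Finset.prod_pos fun l _ => ?_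
  have := nu_real l {x l}
  rw [Finset.coe_singleton, Finset.card_singleton] at this
  rw [this]
  positivity

/-- the averages on the used part -/
lemma erg_lower {i : ℕ} {x y : X} (hy : y ∈ sub i x) (hfin : ∀ t : ℕ, FE (T^[t] y) < ∞) :
    (2 : ℝ) ^ i * W i / (2 ^ (i + ((x i).1 : ℕ) + 1) : ℕ) ≤
      ergAvg T (2 ^ (i + ((x i).1 : ℕ) + 1)) f y := by
  unfold sub at hy
  rw [Set.mem_pi] at hy
  simp only [Finset.coe_range, mem_Iio, mem_ofPred_eq] at hy
  obtain ⟨m, hm, h2⟩ := Finset.mem_image.1 ((hy i (by omega)).2 rfl)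
  have hm' := Finset.mem_Ico.1 hm
  have hmW : m < W i := lt_W (x i).1.2 hm'.2
  have h3 : (T^[m] y) i = ev i 0 := by
    rw [T_iter, ← h2, tau_iter hmW]
  unfold ergAvg
  apply div_le_div_of_nonneg_right _ (Nat.cast_nonneg _)
  calc (2 : ℝ) ^ i * W i ≤ f (T^[m] y) := f_lower (hfin m) h3
    _ ≤ ∑ j ∈ Finset.range (2 ^ (i + ((x i).1 : ℕ) + 1)), f (T^[j] y) :=
        Finset.single_le_sum (f := fun j => f (T^[j] y)) (fun j _ => f_nonneg _)
          (Finset.mem_range.2 hm'.2)

lemma ergAvg_integrable (k : ℕ) : Integrable (ergAvg T k f) mu := by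
  unfold ergAvg
  apply Integrable.div_const
  exact integrable_finsetSum _ fun i _ => (T_mp.iterate i).integrable_comp_of_integrable f_integrable

lemma ergAvg_nonneg (k : ℕ) (y : X) : 0 ≤ ergAvg T k f y :=
  div_nonneg (Finset.sum_nonneg fun _ _ => f_nonneg _) (Nat.cast_nonneg _)

/-- The averages over small balls are large. -/
theorem ballAvg_lower (i : ℕ) (x : X) :
    (2 : ℝ) ^ i / 2 ≤ @ballAvg X met _ mu ((1 / 2) ^ (2 * i))
      (ergAvg T (2 ^ (i + ((x i).1 : ℕ) + 1)) f) x := by
  unfold ballAvg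
  rw [ball_pow]
  have hb := box_real i x
  have hs := sub_real i x
  have hP := P_pos i x
  have hW : (0 : ℝ) < W i := by positivity
  have hJ : (0 : ℝ) < J i := by positivity
  have hbpos : 0 < mu.real (box (2 * i + 1) x) := by rw [hb]; positivity
  rw [← div_eq_inv_mul, le_div_iff₀ hbpos]
  have h1 : ∫ y in sub i x, (2 : ℝ) ^ i * W i / (2 ^ (i + ((x i).1 : ℕ) + 1) : ℕ) ∂mu ≤
      ∫ y in sub i x, ergAvg T (2 ^ (i + ((x i).1 : ℕ) + 1)) f y ∂mu := by
    apply setIntegral_mono_on_ae (integrable_const _).integrableOn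
      (ergAvg_integrable _).integrableOn (sub_measurable i x)
    filter_upwards [ae_fin] with y hy hys
    exact erg_lower hys hy
  have h2 : ∫ y in sub i x, ergAvg T (2 ^ (i + ((x i).1 : ℕ) + 1)) f y ∂mu ≤
      ∫ y in box (2 * i + 1) x, ergAvg T (2 ^ (i + ((x i).1 : ℕ) + 1)) f y ∂mu :=
    setIntegral_mono_set (ergAvg_integrable _).integrableOn
      (Eventually.of_forall fun y => ergAvg_nonneg _ y) (sub_subset i x).eventuallyLE
  rw [setIntegral_const, smul_eq_mul, hs] at h1
  refine le_trans (le_of_eq ?_) (h1.trans h2)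
  rw [hb]
  push_cast
  rw [pow_succ (2 : ℝ) (i + ((x i).1 : ℕ))]
  field_simp

end Q68.HL
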